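import Mathlib

/-!
Squad PVD: derivatives of log-concave functions of one variable (helper47).
-/

set_option autoImplicit false

open Filter Topology Set

namespace PVD.H47

theorem tendsto_shift_right (f : ℝ → ℝ) (x b : ℝ)
    (h : Tendsto (fun t : ℝ => (f (x + t) - f x) / t) (𝓝[>] 0) (𝓝 b)) :
    HasDerivWithinAt f b (Ici x) x := by
  rw [hasDerivWithinAt_iff_tendsto_slope]
  have h1 : Ici x \ {x} = Ioi x := by
    ext y
    simp only [Set.mem_sdiff, mem_Ici, mem_singleton_iff, mem_Ioi]
    constructor
    · rintro ⟨h1, h2⟩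
      exact lt_of_le_of_ne h1 (Ne.symm h2)
    · intro h1
      exact ⟨h1.le, h1.ne'⟩
  rw [h1]
  have h2 : Tendsto (fun y : ℝ => y - x) (𝓝[>] x) (𝓝[>] 0) := by
    refine tendsto_nhdsWithin_iff.2 ⟨?_, ?_⟩
    · have : Tendsto (fun y : ℝ => y - x) (𝓝 x) (𝓝 (x - x)) :=
        (continuous_id.sub continuous_const).tendsto x
      rw [sub_self] at this
      exact this.mono_left nhdsWithin_le_nhds
    · filter_upwards [self_mem_nhdsWithin] with y hy
      exact mem_Ioi.2 (sub_pos.2 hy)
  have h3 := h.comp h2
  refine h3.congr' ?_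
  filter_upwards [self_mem_nhdsWithin] with y _
  simp only [Function.comp, slope, vsub_eq_sub, smul_eq_mul]
  rw [add_sub_cancel, div_eq_inv_mul]

theorem tendsto_shift_left (f : ℝ → ℝ) (x b : ℝ)
    (h : Tendsto (fun t : ℝ => (f x - f (x - t)) / t) (𝓝[>] 0) (𝓝 b)) :
    HasDerivWithinAt f b (Iic x) x := by
  rw [hasDerivWithinAt_iff_tendsto_slope]
  have h1 : Iic x \ {x} = Iio x := by
    ext y
    simp only [Set.mem_sdiff, mem_Iic, mem_singleton_iff, mem_Iio]
    constructor
    · rintro ⟨h1, h2⟩
      exact lt_of_le_of_ne h1 h2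
    · intro h1
      exact ⟨h1.le, h1.ne⟩
  rw [h1]
  have h2 : Tendsto (fun y : ℝ => x - y) (𝓝[<] x) (𝓝[>] 0) := by
    refine tendsto_nhdsWithin_iff.2 ⟨?_, ?_⟩
    · have : Tendsto (fun y : ℝ => x - y) (𝓝 x) (𝓝 (x - x)) :=
        (continuous_const.sub continuous_id).tendsto x
      rw [sub_self] at this
      exact this.mono_left nhdsWithin_le_nhds
    · filter_upwards [self_mem_nhdsWithin] with y hy
      exact mem_Ioi.2 (sub_pos.2 hy)
  have h3 := h.comp h2
  refine h3.congr' ?_
  filter_upwards [self_mem_nhdsWithin] with y hy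
  have hy' : y < x := hy
  simp only [Function.comp, slope, vsub_eq_sub, smul_eq_mul]
  rw [sub_sub_cancel]
  have h4 : x - y ≠ 0 := sub_ne_zero.2 hy'.ne'
  have h5 : y - x ≠ 0 := sub_ne_zero.2 hy'.ne
  field_simp
  ring

/-- A log-concave function with right derivative `b` at `x` and at most that left derivative is
differentiable at `x`. -/
theorem hasDerivAt_of_logConcave (f : ℝ → ℝ) (x b : ℝ) (hx : 0 < x) (hf : ∀ t, 0 < t → 0 < f t)
    (hlc : ∀ s s' l : ℝ, 0 < s → 0 < s' → 0 < l → l < 1 →
      f s ^ (1 - l) * f s' ^ l ≤ f ((1 - l) * s + l * s'))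
    (hr : Tendsto (fun t : ℝ => (f (x + t) - f x) / t) (𝓝[>] 0) (𝓝 b))
    (hl : ∀ e : ℝ, 0 < e → ∀ᶠ t : ℝ in 𝓝[>] 0, f x - f (x - t) ≤ t * (b + e)) :
    HasDerivAt f b x := by
  have hfx := hf x hx
  have hR : HasDerivWithinAt f b (Ici x) x := tendsto_shift_right f x b hr
  -- the right derivative of the logarithm
  have hlog : Tendsto (fun s : ℝ => (Real.log (f (x + s)) - Real.log (f x)) / s) (𝓝[>] 0)
      (𝓝 (b / f x)) := by
    have h1 : HasDerivWithinAt (fun y => Real.log (f y)) (b / f x) (Ici x) x :=
      hR.log hfx.ne'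
    rw [hasDerivWithinAt_iff_tendsto_slope] at h1
    have h2 : Tendsto (fun s : ℝ => x + s) (𝓝[>] 0) (𝓝[Ici x \ {x}] x) := by
      refine tendsto_nhdsWithin_iff.2 ⟨?_, ?_⟩
      · have : Tendsto (fun y : ℝ => x + y) (𝓝 0) (𝓝 (x + 0)) :=
          (continuous_const.add continuous_id).tendsto 0
        rw [add_zero] at this
        exact this.mono_left nhdsWithin_le_nhds
      · filter_upwards [self_mem_nhdsWithin] with y hy
        have hy' : 0 < y := hy
        exact ⟨by simp only [mem_Ici]; linarith, by
          simp only [mem_singleton_iff]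
          intro h
          linarith⟩
    have h3 := h1.comp h2
    refine h3.congr' ?_
    filter_upwards [self_mem_nhdsWithin] with y _
    simp only [Function.comp, slope, vsub_eq_sub, smul_eq_mul]
    rw [add_sub_cancel_left, div_eq_inv_mul]
  -- lower bound of the left difference quotients
  have hlow : ∀ t : ℝ, 0 < t → t < x →
      f x * (1 - Real.exp (-(t * (b / f x)))) / t ≤ (f x - f (x - t)) / t := by
    intro t ht htx
    have hfm : 0 < f (x - t) := hf _ (by linarith)
    have h1 : b / f x ≤ (Real.log (f x) - Real.log (f (x - t))) / t := by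
      refine le_of_tendsto hlog ?_
      filter_upwards [self_mem_nhdsWithin] with s hs
      have hs' : 0 < s := hs
      have hst : 0 < s + t := by linarith
      have hfs : 0 < f (x + s) := hf _ (by linarith)
      have h2 := hlc (x - t) (x + s) (t / (s + t)) (by linarith) (by linarith)
        (div_pos ht hst) (by rw [div_lt_one hst]; linarith)
      have h3 : (1 - t / (s + t)) * (x - t) + t / (s + t) * (x + s) = x := by
        field_simp
        ring
      rw [h3] at h2
      have h4 := Real.log_le_log (by positivity) h2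
      rw [Real.log_mul (Real.rpow_pos_of_pos hfm _).ne' (Real.rpow_pos_of_pos hfs _).ne',
        Real.log_rpow hfm, Real.log_rpow hfs] at h4
      rw [div_le_div_iff₀ hs' ht]
      have h5 : (1 - t / (s + t)) = s / (s + t) := by
        field_simp
        ring
      rw [h5] at h4
      have h6 : s * Real.log (f (x - t)) + t * Real.log (f (x + s)) ≤
          (s + t) * Real.log (f x) := by
        have h7 : (s * Real.log (f (x - t)) + t * Real.log (f (x + s))) / (s + t) ≤
            Real.log (f x) := by
          calc (s * Real.log (f (x - t)) + t * Real.log (f (x + s))) / (s + t)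
              = s / (s + t) * Real.log (f (x - t)) + t / (s + t) * Real.log (f (x + s)) := by
                ring
            _ ≤ _ := h4
        rw [div_le_iff₀ hst] at h7
        linarith
      nlinarith
    refine div_le_div_of_nonneg_right ?_ ht.le
    rw [le_div_iff₀ ht] at h1
    have h2 : f (x - t) ≤ f x * Real.exp (-(t * (b / f x))) := by
      rw [← Real.log_le_log_iff hfm (by positivity), Real.log_mul hfx.ne' (Real.exp_pos _).ne',
        Real.log_exp]
      linarith
    linarith
  -- the lower bound tends to b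
  have hlim : Tendsto (fun t : ℝ => f x * (1 - Real.exp (-(t * (b / f x)))) / t) (𝓝[>] 0)
      (𝓝 b) := by
    have h1 : HasDerivAt (fun t : ℝ => f x * (1 - Real.exp (-(t * (b / f x))))) b 0 := by
      have h2 : HasDerivAt (fun t : ℝ => -(t * (b / f x))) (-(1 * (b / f x))) 0 :=
        ((hasDerivAt_id (0:ℝ)).mul_const _).neg
      have h3 := ((h2.exp).const_sub 1).const_mul (f x)
      have h4 : f x * -(Real.exp (-((0:ℝ) * (b / f x))) * -(1 * (b / f x))) = b := by
        rw [zero_mul, neg_zero, Real.exp_zero]
        field_simp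
      rw [h4] at h3
      exact h3
    have h5 := h1.hasDerivWithinAt (s := Ici 0)
    rw [hasDerivWithinAt_iff_tendsto_slope] at h5
    have h6 : Ici (0:ℝ) \ {0} = Ioi 0 := by
      ext y
      simp only [Set.mem_sdiff, mem_Ici, mem_singleton_iff, mem_Ioi]
      constructor
      · rintro ⟨h1, h2⟩
        exact lt_of_le_of_ne h1 (Ne.symm h2)
      · intro h1
        exact ⟨h1.le, h1.ne'⟩
    rw [h6] at h5
    refine h5.congr' ?_
    filter_upwards [self_mem_nhdsWithin] with y _
    simp only [slope, vsub_eq_sub, smul_eq_mul, zero_mul, neg_zero, Real.exp_zero, sub_self,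
      mul_zero, sub_zero]
    ring
  have hL : HasDerivWithinAt f b (Iic x) x := by
    apply tendsto_shift_left
    rw [Metric.tendsto_nhds]
    intro e he
    have h1 := hl (e / 2) (by linarith)
    have h2 : ∀ᶠ t : ℝ in 𝓝[>] 0,
        dist (f x * (1 - Real.exp (-(t * (b / f x)))) / t) b < e :=
      (Metric.tendsto_nhds.1 hlim) e he
    have h3 : ∀ᶠ t : ℝ in 𝓝[>] 0, t < x :=
      (eventually_lt_nhds hx).filter_mono nhdsWithin_le_nhds
    filter_upwards [h1, h2, h3, self_mem_nhdsWithin] with t h1 h2 h3 h4
    have ht : 0 < t := h4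
    have h5 := hlow t ht h3
    rw [Real.dist_eq, abs_lt] at h2 ⊢
    constructor
    · linarith [h2.1]
    · have h6 : (f x - f (x - t)) / t ≤ b + e / 2 := by
        rw [div_le_iff₀ ht]
        linarith
      linarith
  have := hL.union hR
  rw [Iic_union_Ici] at this
  exact hasDerivWithinAt_univ.1 this

end PVD.H47
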