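import Pool.Agent.PVD.Defs

/-!
Squad PVD: from `PVD.NEGStmt` to the frozen form of the negation (helper47).
-/

set_option autoImplicit false

open MeasureTheory

namespace PVD.H47

theorem frozen (h : PVD.NEGStmt) :
    ¬ (∀ n : ℕ, 3 ≤ n → ∀ K L : Set (EuclideanSpace ℝ (Fin n)),
      IsCompact K → Convex ℝ K → (interior K).Nonempty →
      IsCompact L → Convex ℝ L → (interior L).Nonempty →
      (∀ u : EuclideanSpace ℝ (Fin n), ‖u‖ = 1 →
        (MeasureTheory.Measure.hausdorffMeasure ((n : ℝ) - 1)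
            ((fun x : EuclideanSpace ℝ (Fin n) => x - (inner ℝ x u) • u) '' K)
          = MeasureTheory.Measure.hausdorffMeasure ((n : ℝ) - 1)
            ((fun x : EuclideanSpace ℝ (Fin n) => x - (inner ℝ x u) • u) '' L)) ∧
        ((MeasureTheory.Measure.hausdorffMeasure ((n : ℝ) - 1)
            ((fun x : EuclideanSpace ℝ (Fin n) => x - (inner ℝ x u) • u) '' K)).toReal⁻¹ •
          ∫ x in ((fun x : EuclideanSpace ℝ (Fin n) => x - (inner ℝ x u) • u) '' K), x
            ∂(MeasureTheory.Measure.hausdorffMeasure ((n : ℝ) - 1))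
          = (MeasureTheory.Measure.hausdorffMeasure ((n : ℝ) - 1)
            ((fun x : EuclideanSpace ℝ (Fin n) => x - (inner ℝ x u) • u) '' L)).toReal⁻¹ •
          ∫ x in ((fun x : EuclideanSpace ℝ (Fin n) => x - (inner ℝ x u) • u) '' L), x
            ∂(MeasureTheory.Measure.hausdorffMeasure ((n : ℝ) - 1)))) →
      K = L) := by
  intro hall
  obtain ⟨n, K, L, hn, hK1, hK2, hK3, hL1, hL2, hL3, hdata, hne⟩ := h
  apply hne
  refine hall n hn K L hK1 hK2 hK3 hL1 hL2 hL3 ?_
  intro u hu
  exact hdata u hu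

end PVD.H47
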