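import Pool.Agent.PVD.StmtsM1

/-!
Squad PVD, row N_LBA: lower bound of the volume by exponential tilting (helper47).
-/

set_option autoImplicit false

open MeasureTheory Filter Topology Set

namespace Pool.Agent.PVD.M.H47

open Pool.Agent.PVD.L Pool.Agent.PVD.M

theorem measurableSet_Or (n : ℕ) : MeasurableSet (Or n) := by
  have h : Or n = ⋂ j : Fin n, {d : Fin n → ℝ | 0 ≤ d j} := by
    ext d
    simp [Or]
  rw [h]
  exact MeasurableSet.iInter fun j => measurableSet_le measurable_const (measurable_pi_apply j)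

/-- The set where a linear form deviates. -/
def Dev {n : ℕ} (a th : Fin n → ℝ) (s : ℝ) : Set (Fin n → ℝ) :=
  {d | s < |∑ j, a j * (d j - (th j)⁻¹)|}

theorem measurableSet_Dev {n : ℕ} (a th : Fin n → ℝ) (s : ℝ) : MeasurableSet (Dev a th s) := by
  have hc : Continuous fun d : Fin n → ℝ => |∑ j, a j * (d j - (th j)⁻¹)| := by
    fun_prop
  exact measurableSet_lt measurable_const hc.measurable

theorem lba (hEXI : ExiStmt) (hCHB : ChbStmt) (hUBA : UbaStmt) : LbaStmt := by
  intro n A c m B δ hn hδ hδ1 hB hm hc hcB hf hbig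
  classical
  have hn' : (0:ℝ) < n := by exact_mod_cast hn
  set f : Fin n → ℝ := fun j => fA A c m j with hfdef
  set th : Fin n → ℝ := fun j => (n:ℝ) * f j with hthdef
  have hth : ∀ j, 0 < th j := fun j => mul_pos hn' (hf j)
  set P : ℝ := ∏ j, (th j)⁻¹ with hP
  have hPpos : 0 < P := Finset.prod_pos fun j _ => inv_pos.2 (hth j)
  set g : (Fin n → ℝ) → ℝ := fun d => Real.exp (-∑ j, th j * d j) with hg
  obtain ⟨hgi, hgP⟩ := hEXI n th hth
  have hgpos : ∀ d, 0 < g d := fun d => Real.exp_pos _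
  -- the bad sets
  set B0 : Set (Fin n → ℝ) := Dev th th (n * δ) with hB0
  set Bi : Fin 4 → Set (Fin n → ℝ) := fun i => Dev (c i) th δ with hBi
  set Bad : Set (Fin n → ℝ) := B0 ∪ ⋃ i ∈ A, Bi i with hBad
  have hmB0 : MeasurableSet B0 := measurableSet_Dev _ _ _
  have hmBi : ∀ i, MeasurableSet (Bi i) := fun i => measurableSet_Dev _ _ _
  have hmBad : MeasurableSet Bad :=
    hmB0.union (Finset.measurableSet_biUnion A fun i _ => hmBi i)
  have hIB0 : ∫ d in Or n ∩ B0, g d ≤ 1 / (n * δ ^ 2) * P := by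
    have h1 := hCHB n th th (n * δ) hth (by positivity)
    refine h1.trans (le_of_eq ?_)
    have h2 : ∀ j : Fin n, th j ^ 2 / th j ^ 2 = 1 := fun j =>
      div_self (pow_pos (hth j) 2).ne'
    simp only [h2, Finset.sum_const, Finset.card_univ, Fintype.card_fin, nsmul_eq_mul, mul_one]
    rw [← hP]
    have : (n:ℝ) / ((n:ℝ) * δ) ^ 2 = 1 / (n * δ ^ 2) := by
      field_simp
    rw [this]
  have hIBi : ∀ i ∈ A, ∫ d in Or n ∩ Bi i, g d ≤ B ^ 2 / (n * δ ^ 2) * P := by
    intro i hi
    have h1 := hCHB n th (c i) δ hth hδ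
    refine h1.trans ?_
    refine mul_le_mul_of_nonneg_right ?_ hPpos.le
    have h2 : ∀ j : Fin n, c i j ^ 2 / th j ^ 2 ≤ B ^ 2 / (n:ℝ) ^ 2 := by
      intro j
      have h3 : c i j ^ 2 ≤ (B * f j) ^ 2 :=
        pow_le_pow_left₀ (hc i hi j) (hcB i hi j) 2
      rw [div_le_div_iff₀ (pow_pos (hth j) 2) (by positivity)]
      calc c i j ^ 2 * (n:ℝ) ^ 2 ≤ (B * f j) ^ 2 * (n:ℝ) ^ 2 := by
            exact mul_le_mul_of_nonneg_right h3 (by positivity)
        _ = B ^ 2 * th j ^ 2 := by
            rw [hthdef]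
            ring
    have h3 : ∑ j : Fin n, c i j ^ 2 / th j ^ 2 ≤ n * (B ^ 2 / (n:ℝ) ^ 2) := by
      calc ∑ j : Fin n, c i j ^ 2 / th j ^ 2 ≤ ∑ _j : Fin n, B ^ 2 / (n:ℝ) ^ 2 :=
            Finset.sum_le_sum fun j _ => h2 j
        _ = n * (B ^ 2 / (n:ℝ) ^ 2) := by
            simp only [Finset.sum_const, Finset.card_univ, Fintype.card_fin, nsmul_eq_mul]
    calc (∑ j : Fin n, c i j ^ 2 / th j ^ 2) / δ ^ 2 ≤ n * (B ^ 2 / (n:ℝ) ^ 2) / δ ^ 2 :=
          div_le_div_of_nonneg_right h3 (by positivity)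
      _ = B ^ 2 / (n * δ ^ 2) := by
          field_simp
  have hIBad : ∫ d in Or n ∩ Bad, g d ≤ P / 2 := by
    have hint : ∀ s : Set (Fin n → ℝ), MeasurableSet s →
        IntegrableOn (s.indicator g) (Or n) := fun s hs => hgi.indicator hs
    have h1 : ∫ d in Or n, Bad.indicator g d ≤
        ∫ d in Or n, (B0.indicator g d + ∑ i ∈ A, (Bi i).indicator g d) := by
      refine integral_mono (hint _ hmBad) ?_ ?_
      · exact (hint _ hmB0).add (integrable_finsetSum A fun i _ => hint _ (hmBi i))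
      · intro d
        have hs : ∀ s : Set (Fin n → ℝ), 0 ≤ s.indicator g d := fun s =>
          indicator_nonneg (fun x _ => (hgpos x).le) d
        by_cases hd : d ∈ Bad
        · show Bad.indicator g d ≤ B0.indicator g d + ∑ i ∈ A, (Bi i).indicator g d
          rw [indicator_of_mem hd]
          rcases hd with hd | hd
          · rw [indicator_of_mem hd]
            have : 0 ≤ ∑ i ∈ A, (Bi i).indicator g d := Finset.sum_nonneg fun i _ => hs _
            linarith
          · obtain ⟨i, hi, hdi⟩ := mem_iUnion₂.1 hd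
            have h2 : g d ≤ ∑ i ∈ A, (Bi i).indicator g d := by
              have h3 := Finset.single_le_sum (f := fun i => (Bi i).indicator g d)
                (fun i _ => hs _) hi
              simp only [indicator_of_mem hdi] at h3
              exact h3
            have := hs B0
            linarith
        · show Bad.indicator g d ≤ B0.indicator g d + ∑ i ∈ A, (Bi i).indicator g d
          rw [indicator_of_notMem hd]
          have := hs B0
          have : 0 ≤ ∑ i ∈ A, (Bi i).indicator g d := Finset.sum_nonneg fun i _ => hs _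
          linarith
    rw [setIntegral_indicator hmBad] at h1
    have h2 : ∫ d in Or n, (B0.indicator g d + ∑ i ∈ A, (Bi i).indicator g d) =
        (∫ d in Or n ∩ B0, g d) + ∑ i ∈ A, ∫ d in Or n ∩ Bi i, g d := by
      rw [integral_add (hint _ hmB0) (integrable_finsetSum A fun i _ => hint _ (hmBi i)),
        setIntegral_indicator hmB0, integral_finsetSum A fun i _ => hint _ (hmBi i)]
      congr 1
      exact Finset.sum_congr rfl fun i _ => setIntegral_indicator (hmBi i)
    rw [h2] at h1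
    have h3 : ∑ i ∈ A, ∫ d in Or n ∩ Bi i, g d ≤ A.card * (B ^ 2 / (n * δ ^ 2) * P) := by
      calc ∑ i ∈ A, ∫ d in Or n ∩ Bi i, g d ≤ ∑ _i ∈ A, B ^ 2 / (n * δ ^ 2) * P :=
            Finset.sum_le_sum fun i hi => hIBi i hi
        _ = A.card * (B ^ 2 / (n * δ ^ 2) * P) := by
            rw [Finset.sum_const, nsmul_eq_mul]
    have h4 : 1 / (n * δ ^ 2) * P + A.card * (B ^ 2 / (n * δ ^ 2) * P) ≤ P / 2 := by
      have h5 : 1 / (n * δ ^ 2) * P + A.card * (B ^ 2 / (n * δ ^ 2) * P) =
          ((A.card : ℝ) * B ^ 2 + 1) / (n * δ ^ 2) * P := by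
        ring
      rw [h5]
      have h6 : ((A.card : ℝ) * B ^ 2 + 1) / (n * δ ^ 2) ≤ 1 / 2 := by
        rw [div_le_div_iff₀ (by positivity) (by norm_num)]
        linarith
      calc _ ≤ 1 / 2 * P := mul_le_mul_of_nonneg_right h6 hPpos.le
        _ = P / 2 := by ring
    linarith
  -- the good set
  set G : Set (Fin n → ℝ) := Or n \ Bad with hG
  have hmG : MeasurableSet G := (measurableSet_Or n).diff hmBad
  have hIG : P / 2 ≤ ∫ d in G, g d := by
    have h1 := integral_inter_add_sdiff (μ := volume) hmBad hgi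
    have h2 : ∫ d in Or n, g d = P := hgP
    rw [h2] at h1
    linarith
  set h' : Fin 4 → ℝ := fun i => (n : ℝ)⁻¹ * (∑ j, c i j / fA A c m j) + δ with hh'
  have hGP : G ⊆ Po A c h' := by
    rintro d ⟨hd, hnb⟩
    refine ⟨hd, fun i hi => ?_⟩
    have h1 : d ∉ Bi i := fun h => hnb (Or.inr (mem_iUnion₂.2 ⟨i, hi, h⟩))
    have h2 : |∑ j, c i j * (d j - (th j)⁻¹)| ≤ δ := not_lt.1 h1
    have h3 := (abs_le.1 h2).2
    have h4 : ∑ j, c i j * (d j - (th j)⁻¹) =
        ∑ j, c i j * d j - (n : ℝ)⁻¹ * ∑ j, c i j / fA A c m j := by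
      rw [Finset.mul_sum, ← Finset.sum_sub_distrib]
      refine Finset.sum_congr rfl fun j _ => ?_
      have h5 : fA A c m j ≠ 0 := (hf j).ne'
      rw [hthdef, hfdef]
      field_simp
    rw [h4] at h3
    show ∑ j, c i j * d j ≤ (n : ℝ)⁻¹ * (∑ j, c i j / fA A c m j) + δ
    linarith
  have hGT : ∀ d ∈ G, g d ≤ Real.exp (-(n * (1 - δ))) := by
    rintro d ⟨hd, hnb⟩
    have h1 : d ∉ B0 := fun h => hnb (Or.inl h)
    have h2 : |∑ j, th j * (d j - (th j)⁻¹)| ≤ n * δ := not_lt.1 h1
    have h3 := (abs_le.1 h2).1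
    have h4 : ∑ j, th j * (d j - (th j)⁻¹) = ∑ j, th j * d j - n := by
      have h5 : ∀ j : Fin n, th j * (d j - (th j)⁻¹) = th j * d j - 1 := fun j => by
        rw [mul_sub, mul_inv_cancel₀ (hth j).ne']
      simp only [h5, Finset.sum_sub_distrib, Finset.sum_const, Finset.card_univ,
        Fintype.card_fin, nsmul_eq_mul, mul_one]
    rw [h4] at h3
    rw [hg]
    apply Real.exp_le_exp.2
    linarith
  have hfinP : volume (Po A c h') ≠ ⊤ := by
    have h1 := hUBA n A c h' m n hn' (fun i hi => (hm i hi).le) hf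
    exact (lt_of_le_of_lt h1 ENNReal.ofReal_lt_top).ne
  have hfinG : volume G ≠ ⊤ := (lt_of_le_of_lt (measure_mono hGP) hfinP.lt_top).ne
  have h1 : ∫ d in G, g d ≤ Real.exp (-(n * (1 - δ))) * (volume G).toReal := by
    have h2 : ∫ d in G, g d ≤ ∫ _d in G, Real.exp (-(n * (1 - δ))) := by
      refine setIntegral_mono_on (hgi.mono_set sdiff_subset) ?_ hmG hGT
      exact integrableOn_const hfinG
    refine h2.trans (le_of_eq ?_)
    rw [setIntegral_const, smul_eq_mul, mul_comm]
    rfl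
  have h2 : (volume G).toReal ≤ (volume (Po A c h')).toReal :=
    ENNReal.toReal_mono hfinP (measure_mono hGP)
  have h3 : P / 2 ≤ Real.exp (-(n * (1 - δ))) * (volume (Po A c h')).toReal :=
    (hIG.trans h1).trans (mul_le_mul_of_nonneg_left h2 (Real.exp_pos _).le)
  have h4 : Real.exp (n * (1 - δ)) * (P / 2) ≤ (volume (Po A c h')).toReal := by
    have h5 := mul_le_mul_of_nonneg_left h3 (Real.exp_pos (n * (1 - δ))).le
    rw [← mul_assoc, ← Real.exp_add, add_neg_cancel, Real.exp_zero, one_mul] at h5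
    exact h5
  calc 1 / 2 * (Real.exp (n * (1 - δ)) * ∏ j, ((n : ℝ) * fA A c m j)⁻¹)
      = Real.exp (n * (1 - δ)) * (P / 2) := by
        rw [hP, hthdef, hfdef]
        ring
    _ ≤ _ := h4

end Pool.Agent.PVD.M.H47
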