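import Pool.Agent.PVD.StmtsM2

/-!
Squad PVD, row M_MEV: signs of the five functions on the faces for large `m` (helper47).
-/

set_option autoImplicit false

open MeasureTheory Filter Topology Set

namespace Pool.Agent.PVD.M.H47

open Pool.Agent.PVD.L Pool.Agent.PVD.M

/-- The violated conditions. -/
def Good (k m : ℕ) (q d : ℝ) (x : Fin 5 → ℝ) : Prop :=
  (∀ i : Fin 5, (x i = 0 → FF k m q d x i ≤ 0) ∧ (x i = 1 → 0 ≤ FF k m q d x i)) ∧
    0 < al k m AK (hK k q x) 0

theorem mev (hMLI : MliStmt) (hMSG : MsgStmt) : MevStmt := by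
  intro k q d kap hok
  by_contra hcon
  push Not at hcon
  have hbad : ∀ m0 : ℕ, ∃ m : ℕ, m0 ≤ m ∧ ∃ x ∈ Icc (0 : Fin 5 → ℝ) 1, ¬ Good k m q d x := by
    intro m0
    obtain ⟨m, hm, x, hx, h⟩ := hcon m0
    refine ⟨m, hm, x, hx, ?_⟩
    rintro ⟨h1, h2⟩
    exact absurd (h h1) (not_le.2 h2)
  let S : Set ℕ := {m | ∃ x ∈ Icc (0 : Fin 5 → ℝ) 1, ¬ Good k m q d x}
  have hfr : ∃ᶠ m in atTop, m ∈ S := by
    rw [Filter.frequently_atTop]
    intro m0
    obtain ⟨m, hm, x, hx, h⟩ := hbad m0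
    exact ⟨m, hm, x, hx, h⟩
  have hne : (atTop ⊓ 𝓟 S).NeBot := Filter.frequently_mem_iff_neBot.1 hfr
  let U : Ultrafilter ℕ := Ultrafilter.of (atTop ⊓ 𝓟 S)
  have hU : (U : Filter ℕ) ≤ atTop ⊓ 𝓟 S := Ultrafilter.of_le _
  have hUtop : (U : Filter ℕ) ≤ atTop := hU.trans inf_le_left
  have hUS : ∀ᶠ m in (U : Filter ℕ), m ∈ S := by
    have : (U : Filter ℕ) ≤ 𝓟 S := hU.trans inf_le_right
    exact this (mem_principal_self S)
  classical
  let X : ℕ → Fin 5 → ℝ := fun m => if h : m ∈ S then h.choose else 0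
  have hX : ∀ m ∈ S, X m ∈ Icc (0 : Fin 5 → ℝ) 1 ∧ ¬ Good k m q d (X m) := by
    intro m hm
    have h1 : X m = hm.choose := dif_pos hm
    rw [h1]
    exact hm.choose_spec
  have hXc : ∀ᶠ m in (U : Filter ℕ), X m ∈ Icc (0 : Fin 5 → ℝ) 1 := by
    filter_upwards [hUS] with m hm
    exact (hX m hm).1
  have hcomp : IsCompact (Icc (0 : Fin 5 → ℝ) 1) := isCompact_Icc
  obtain ⟨x, hx, hxU⟩ := hcomp.ultrafilter_le_nhds (U.map X) (by
    rw [Filter.le_principal_iff]
    exact hXc)
  have hXt : Tendsto X (U : Filter ℕ) (𝓝 x) := hxU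
  obtain ⟨hFF, hal⟩ := hMLI k q d kap hok ℕ (U : Filter ℕ) id X x hUtop hXc hXt hx
  have hsg := hMSG k q d kap hok x hx
  have hcoord : ∀ i : Fin 5, Tendsto (fun m => X m i) (U : Filter ℕ) (𝓝 (x i)) := fun i =>
    ((continuous_apply i).tendsto x).comp hXt
  have hone : ∀ i : Fin 5, ∀ᶠ m in (U : Filter ℕ),
      (X m i = 0 → FF k m q d (X m) i ≤ 0) ∧ (X m i = 1 → 0 ≤ FF k m q d (X m) i) := by
    intro i
    have h0 : ∀ᶠ m in (U : Filter ℕ), (X m i = 0 → FF k m q d (X m) i ≤ 0) := by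
      rcases Ultrafilter.em U (fun m => X m i = 0) with h | h
      · have hxi : x i = 0 := by
          refine tendsto_nhds_unique (hcoord i) ?_
          refine tendsto_const_nhds.congr' ?_
          filter_upwards [h] with m hm
          exact hm.symm
        have hneg := (hsg i).1 hxi
        filter_upwards [(hFF i).eventually (gt_mem_nhds hneg)] with m hm _
        exact le_of_lt hm
      · filter_upwards [h] with m hm h2
        exact absurd h2 hm
    have h1 : ∀ᶠ m in (U : Filter ℕ), (X m i = 1 → 0 ≤ FF k m q d (X m) i) := by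
      rcases Ultrafilter.em U (fun m => X m i = 1) with h | h
      · have hxi : x i = 1 := by
          refine tendsto_nhds_unique (hcoord i) ?_
          refine tendsto_const_nhds.congr' ?_
          filter_upwards [h] with m hm
          exact hm.symm
        have hpos := (hsg i).2 hxi
        filter_upwards [(hFF i).eventually (lt_mem_nhds hpos)] with m hm _
        exact le_of_lt hm
      · filter_upwards [h] with m hm h2
        exact absurd h2 hm
    filter_upwards [h0, h1] with m hm0 hm1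
    exact ⟨hm0, hm1⟩
  have hall : ∀ᶠ m in (U : Filter ℕ), ∀ i : Fin 5,
      (X m i = 0 → FF k m q d (X m) i ≤ 0) ∧ (X m i = 1 → 0 ≤ FF k m q d (X m) i) :=
    Filter.eventually_all.2 hone
  have hq : 0 < q := hok.2.1
  have halp : ∀ᶠ m in (U : Filter ℕ), 0 < al k m AK (hK k q (X m)) 0 :=
    hal.eventually (lt_mem_nhds hq)
  have hfalse : ∀ᶠ m in (U : Filter ℕ), False := by
    filter_upwards [hUS, hall, halp] with m hm h1 h2
    exact (hX m hm).2 ⟨h1, h2⟩
  obtain ⟨m, hm⟩ := hfalse.exists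
  exact hm

end Pool.Agent.PVD.M.H47
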