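import Pool.Agent.PVD.StmtsG
import Pool.Agent.Helper47_PVD.Core

/-!
Squad PVD, row WCD: the partial derivatives of the volume of the chamber polytope are continuous
(helper47).
-/

set_option autoImplicit false

open MeasureTheory Metric Set Filter Topology

namespace PVD.H47

open PV PV3

/-- The tangent line of the logarithm of a log-concave function. -/
theorem log_le_tangent (f : ℝ → ℝ) (x y b : ℝ) (hx : 0 < x) (hy : 0 < y)
    (hf : ∀ t, 0 < t → 0 < f t)
    (hlc : ∀ s s' l : ℝ, 0 < s → 0 < s' → 0 < l → l < 1 →
      f s ^ (1 - l) * f s' ^ l ≤ f ((1 - l) * s + l * s'))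
    (hd : HasDerivAt f b x) :
    Real.log (f y) ≤ Real.log (f x) + b / f x * (y - x) := by
  have hfx := hf x hx
  have hfy := hf y hy
  have h1 : HasDerivAt (fun l : ℝ => Real.log (f (x + l * (y - x)))) (b / f x * (y - x)) 0 := by
    have h2 : HasDerivAt (fun l : ℝ => x + l * (y - x)) (1 * (y - x)) 0 :=
      ((hasDerivAt_id (0:ℝ)).mul_const _).const_add x
    have h3 : HasDerivAt f b (x + 0 * (y - x)) := by
      rw [zero_mul, add_zero]
      exact hd
    have h4 := h3.comp 0 h2
    have h5 : (f ∘ fun l : ℝ => x + l * (y - x)) 0 = f x := by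
      simp only [Function.comp, zero_mul, add_zero]
    have h6 := h4.log (by rw [h5]; exact hfx.ne')
    rw [h5] at h6
    have h7 : b * (1 * (y - x)) / f x = b / f x * (y - x) := by ring
    rw [h7] at h6
    exact h6
  have h2 := h1.hasDerivWithinAt (s := Ici 0)
  rw [hasDerivWithinAt_iff_tendsto_slope] at h2
  have h6 : Ici (0:ℝ) \ {0} = Ioi 0 := by
    ext z
    simp only [Set.mem_sdiff, mem_Ici, mem_singleton_iff, mem_Ioi]
    constructor
    · rintro ⟨h1, h2⟩
      exact lt_of_le_of_ne h1 (Ne.symm h2)
    · intro h1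
      exact ⟨h1.le, h1.ne'⟩
  rw [h6] at h2
  have h3 : Real.log (f y) - Real.log (f x) ≤ b / f x * (y - x) := by
    refine ge_of_tendsto h2 ?_
    have h4 : ∀ᶠ l : ℝ in 𝓝[>] 0, l < 1 :=
      (eventually_lt_nhds zero_lt_one).filter_mono nhdsWithin_le_nhds
    filter_upwards [h4, self_mem_nhdsWithin] with l hl1 hl0
    have hl : 0 < l := hl0
    simp only [slope, vsub_eq_sub, smul_eq_mul, zero_mul, add_zero, sub_zero]
    have h5 := hlc x y l hx hy hl hl1
    have h7 : (1 - l) * x + l * y = x + l * (y - x) := by ring
    rw [h7] at h5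
    have h8 := Real.log_le_log (by positivity) h5
    rw [Real.log_mul (Real.rpow_pos_of_pos hfx _).ne' (Real.rpow_pos_of_pos hfy _).ne',
      Real.log_rpow hfx, Real.log_rpow hfy] at h8
    rw [← div_eq_inv_mul, le_div_iff₀ hl]
    linarith
  linarith

/-- WCD. -/
theorem wcd (hWDI : WDIStmt) (hWCO : WCOStmt) (hWLC : WLCStmt) (hWPS : WPSStmt) : WCDStmt := by
  intro n R H hn hR hH ι F Hm hm r hr
  have hpos : ∀ (G : ℕ → ℝ), (∀ s ∈ R, 0 < G s) → ∀ t : ℝ, 0 < t →
      ∀ s ∈ R, 0 < Function.update G r t s := by
    intro G hG t ht s hs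
    by_cases hsr : s = r
    · rw [hsr, Function.update_self]
      exact ht
    · rw [Function.update_of_ne hsr]
      exact hG s hs
  have htan : ∀ (G : ℕ → ℝ), (∀ s ∈ R, 0 < G s) → ∀ y : ℝ, 0 < y →
      Real.log (W n R (Function.update G r y)) ≤ Real.log (W n R G) +
        dW n R G r / W n R G * (y - G r) := by
    intro G hG y hy
    have h1 := log_le_tangent (fun t : ℝ => W n R (Function.update G r t)) (G r) y
      (dW n R G r) (hG r hr) hy (fun t ht => (hWPS n R _ hR).2 (hpos G hG t ht)) (by
        intro s s' l _ _ hl0 hl1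
        have h4 := hWLC n R (Function.update G r s) (Function.update G r s') hR l hl0 hl1
        have h5 : (fun q : ℕ => (1 - l) * Function.update G r s q +
            l * Function.update G r s' q) = Function.update G r ((1 - l) * s + l * s') := by
          funext q
          by_cases hq : q = r
          · rw [hq, Function.update_self, Function.update_self, Function.update_self]
          · rw [Function.update_of_ne hq, Function.update_of_ne hq, Function.update_of_ne hq]
            ring
        rw [h5] at h4
        exact h4) (hWDI n R G hn hR hG r hr)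
    simp only [Function.update_eq_self] at h1
    exact h1
  have hW : 0 < W n R H := (hWPS n R H hR).2 hH
  have hmpos : ∀ᶠ i in F, ∀ s ∈ R, 0 < Hm i s := by
    rw [Filter.eventually_all_finset]
    intro s hs
    exact (hm s hs).eventually (lt_mem_nhds (hH s hs))
  have hWm : Tendsto (fun i => W n R (Hm i)) F (𝓝 (W n R H)) := hWCO n R H hR hH ι F Hm hm
  have hWs : ∀ s : ℝ, 0 < H r + s →
      Tendsto (fun i => W n R (Function.update (Hm i) r (Hm i r + s))) F
        (𝓝 (W n R (Function.update H r (H r + s)))) := by
    intro s hs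
    refine hWCO n R (Function.update H r (H r + s)) hR (hpos H hH _ hs) ι F
      (fun i => Function.update (Hm i) r (Hm i r + s)) ?_
    intro q hq
    by_cases hqr : q = r
    · subst hqr
      simp only [Function.update_self]
      exact (hm q hq).add_const s
    · simp only [Function.update_of_ne hqr]
      exact hm q hq
  have hder := hWDI n R H hn hR hH r hr
  have hlogder : HasDerivAt (fun s : ℝ => Real.log (W n R (Function.update H r (H r + s))))
      (dW n R H r / W n R H) 0 := by
    have h2 : HasDerivAt (fun s : ℝ => H r + s) 1 0 := (hasDerivAt_id (0:ℝ)).const_add (H r)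
    have h3 : HasDerivAt (fun t : ℝ => W n R (Function.update H r t)) (dW n R H r) (H r + 0) := by
      rw [add_zero]
      exact hder
    have h4 := h3.comp 0 h2
    have h5 : ((fun t : ℝ => W n R (Function.update H r t)) ∘ fun s : ℝ => H r + s) 0 =
        W n R H := by
      simp only [Function.comp, add_zero, Function.update_eq_self]
    have h6 := h4.log (by rw [h5]; exact hW.ne')
    rw [h5, mul_one] at h6
    exact h6
  -- the logarithmic derivatives converge
  have hD : Tendsto (fun i => dW n R (Hm i) r / W n R (Hm i)) F (𝓝 (dW n R H r / W n R H)) := by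
    rw [Metric.tendsto_nhds]
    intro e he
    have h1 := hlogder
    rw [hasDerivAt_iff_tendsto_slope, Metric.tendsto_nhds] at h1
    have h2 := h1 (e / 2) (by linarith)
    rw [eventually_nhdsWithin_iff, Metric.eventually_nhds_iff] at h2
    obtain ⟨δ, hδ, h2⟩ := h2
    obtain ⟨s, hs0, hsδ, hsH⟩ : ∃ s : ℝ, 0 < s ∧ s < δ ∧ s < H r := by
      refine ⟨min δ (H r) / 2, ?_, ?_, ?_⟩
      · have := lt_min hδ (hH r hr)
        linarith
      · have := min_le_left δ (H r)
        linarith
      · have := min_le_right δ (H r)
        have := hH r hr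
        linarith
    have hd1 : dist s 0 < δ := by
      rw [dist_zero_right, Real.norm_eq_abs, abs_of_pos hs0]
      exact hsδ
    have hd2 : dist (-s) 0 < δ := by
      rw [dist_zero_right, norm_neg, Real.norm_eq_abs, abs_of_pos hs0]
      exact hsδ
    have hne1 : s ∈ ({0}ᶜ : Set ℝ) := by
      simp only [mem_compl_iff, mem_singleton_iff]
      exact hs0.ne'
    have hne2 : -s ∈ ({0}ᶜ : Set ℝ) := by
      simp only [mem_compl_iff, mem_singleton_iff]
      linarith
    have h3 := h2 hd1 hne1
    have h4 := h2 hd2 hne2
    rw [Real.dist_eq, abs_lt] at h3 h4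
    simp only [slope, vsub_eq_sub, smul_eq_mul, add_zero, sub_zero,
      Function.update_eq_self] at h3 h4
    -- limits of the difference quotients
    have hq1 : Tendsto (fun i => s⁻¹ * (Real.log (W n R (Function.update (Hm i) r (Hm i r + s))) -
        Real.log (W n R (Hm i)))) F (𝓝 (s⁻¹ * (Real.log (W n R (Function.update H r (H r + s))) -
        Real.log (W n R H)))) := by
      refine Tendsto.const_mul _ (Tendsto.sub ?_ ?_)
      · exact (hWs s (by linarith [hH r hr])).log
          ((hWPS n R _ hR).2 (hpos H hH _ (by linarith [hH r hr]))).ne'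
      · exact hWm.log hW.ne'
    have hq2 : Tendsto (fun i => (-s)⁻¹ *
        (Real.log (W n R (Function.update (Hm i) r (Hm i r + -s))) -
        Real.log (W n R (Hm i)))) F
        (𝓝 ((-s)⁻¹ * (Real.log (W n R (Function.update H r (H r + -s))) -
        Real.log (W n R H)))) := by
      refine Tendsto.const_mul _ (Tendsto.sub ?_ ?_)
      · exact (hWs (-s) (by linarith)).log
          ((hWPS n R _ hR).2 (hpos H hH _ (by linarith))).ne'
      · exact hWm.log hW.ne'
    have hb1 : ∀ᶠ i in F, dW n R H r / W n R H - e < s⁻¹ *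
        (Real.log (W n R (Function.update (Hm i) r (Hm i r + s))) -
        Real.log (W n R (Hm i))) :=
      hq1.eventually (lt_mem_nhds (by linarith [h3.1]))
    have hb2 : ∀ᶠ i in F, (-s)⁻¹ *
        (Real.log (W n R (Function.update (Hm i) r (Hm i r + -s))) -
        Real.log (W n R (Hm i))) < dW n R H r / W n R H + e :=
      hq2.eventually (gt_mem_nhds (by linarith [h4.2]))
    have hb3 : ∀ᶠ i in F, s < Hm i r := (hm r hr).eventually (lt_mem_nhds hsH)
    filter_upwards [hb1, hb2, hb3, hmpos] with i hi1 hi2 hi3 hi4
    have ht1 := htan (Hm i) hi4 (Hm i r + s) (by linarith [hi4 r hr])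
    have ht2 := htan (Hm i) hi4 (Hm i r + -s) (by linarith)
    rw [add_sub_cancel_left] at ht1 ht2
    rw [Real.dist_eq, abs_lt]
    constructor
    · have : s⁻¹ * (Real.log (W n R (Function.update (Hm i) r (Hm i r + s))) -
          Real.log (W n R (Hm i))) ≤ dW n R (Hm i) r / W n R (Hm i) := by
        rw [inv_mul_le_iff₀ hs0]
        linarith
      linarith
    · have : dW n R (Hm i) r / W n R (Hm i) ≤ (-s)⁻¹ *
          (Real.log (W n R (Function.update (Hm i) r (Hm i r + -s))) -
          Real.log (W n R (Hm i))) := by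
        rw [inv_neg, neg_mul, ← mul_neg, le_inv_mul_iff₀ hs0]
        linarith
      linarith
  have hfin := hD.mul hWm
  rw [div_mul_cancel₀ _ hW.ne'] at hfin
  refine hfin.congr' ?_
  filter_upwards [hmpos] with i hi
  exact div_mul_cancel₀ _ ((hWPS n R _ hR).2 hi).ne'

end PVD.H47
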