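import Pool.Agent.PVD.StmtsG
import Pool.Agent.Helper47_PVD.Core

/-!
Squad PVD, row WDI: the partial derivatives of the volume of the chamber polytope (helper47).
-/

set_option autoImplicit false

open MeasureTheory Metric Set Filter Topology

namespace PVD.H47

open PV PV3

open Classical in
/-- The direction of the class `r`. -/
noncomputable def dir {n : ℕ} (φ : E n →ₗᵢ[ℝ] E (n + 1)) (r : ℕ) : E n → ℝ :=
  fun v => if ∃ A : Finset (Fin (n + 1)), A.card = r ∧ wn φ A = v then 1 / nu n r else 0

theorem pl_congr {n : ℕ} (U : Finset (E n)) (c c' : E n → ℝ) (h : ∀ w ∈ U, c w = c' w) :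
    Pl U c = Pl U c' := by
  ext x
  simp only [Pl, mem_setOf_eq]
  constructor
  · intro hx w hw
    rw [← h w hw]
    exact hx w hw
  · intro hx w hw
    rw [h w hw]
    exact hx w hw

theorem mem_UU {n : ℕ} (φ : E n →ₗᵢ[ℝ] E (n + 1)) (R : Finset ℕ) (v : E n) :
    v ∈ UU φ R ↔ ∃ A : Finset (Fin (n + 1)), A.card ∈ R ∧ wn φ A = v := by
  classical
  unfold UU
  rw [Finset.mem_image]
  constructor
  · rintro ⟨A, hA, rfl⟩
    exact ⟨A, (Finset.mem_filter.1 hA).2, rfl⟩
  · rintro ⟨A, hA, rfl⟩
    exact ⟨A, Finset.mem_filter.2 ⟨Finset.mem_univ _, hA⟩, rfl⟩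

/-- Moving the support number of one class. -/
theorem pl_dir (hNRM : NRMStmt) (hPLC : PLCStmt) {n : ℕ} (φ : E n →ₗᵢ[ℝ] E (n + 1))
    (R : Finset ℕ) (hφ : Emb n φ) (hR : RO n R) (H : ℕ → ℝ) (r : ℕ) (hr : r ∈ R) (t : ℝ) :
    Pl (UU φ R) (fun w => cH φ R H w + t * dir φ r w) =
      PP φ R (Function.update H r (H r + t)) := by
  obtain ⟨-, -, h3⟩ := hPLC n φ R hφ hR
  rw [← (h3 (Function.update H r (H r + t))).1]
  apply pl_congr
  intro w hw
  obtain ⟨A, hA, rfl⟩ := (mem_UU φ R w).1 hw
  rw [(h3 H).2.1 A hA, (h3 (Function.update H r (H r + t))).2.1 A hA]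
  have hA1 := hR.2 _ hA
  have hr1 := hR.2 _ hr
  obtain ⟨hnu, -, -, -, -, hinj⟩ := (hNRM n φ hφ).2.1 A (by omega) (by omega)
  by_cases hAr : A.card = r
  · have h4 : dir φ r (wn φ A) = 1 / nu n r := by
      unfold dir
      rw [if_pos ⟨A, hAr, rfl⟩]
    rw [h4, hAr, Function.update_self]
    rw [hAr] at hnu
    ring
  · have h4 : dir φ r (wn φ A) = 0 := by
      unfold dir
      rw [if_neg]
      rintro ⟨B, hB, hBA⟩
      have := hinj B (by omega) (by omega) hBA.symm
      rw [this] at hAr
      exact hAr hB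
    rw [h4, Function.update_of_ne hAr]
    ring

theorem dir_nonneg {n : ℕ} (φ : E n →ₗᵢ[ℝ] E (n + 1)) (r : ℕ) (w : E n) : 0 ≤ dir φ r w := by
  unfold dir
  split_ifs
  · exact div_nonneg zero_le_one (Real.sqrt_nonneg _)
  · exact le_refl _

/-- WDI. -/
theorem wdi (hPHI : PHIStmt) (hNRM : NRMStmt) (hPLC : PLCStmt) (hCHV : CHVStmt)
    (hWLC : WLCStmt) (hWPS : WPSStmt) (hDER : PV3.DERStmt) (hINN : PV3.INNStmt) : WDIStmt := by
  intro n R H hn hR hH r hr
  obtain ⟨φ, hφ⟩ := hPHI n
  obtain ⟨κ, hκ, hvol⟩ := hCHV n φ (by omega) hφ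
  obtain ⟨hUn, hBd, h3⟩ := hPLC n φ R hφ hR
  obtain ⟨hP, -, hcb⟩ := h3 H
  have hpos : ∀ t : ℝ, 0 < t → ∀ s ∈ R, 0 < Function.update H r t s := by
    intro t ht s hs
    by_cases hsr : s = r
    · rw [hsr, Function.update_self]
      exact ht
    · rw [Function.update_of_ne hsr]
      exact hH s hs
  have hvl : ∀ t : ℝ, vl (Pl (UU φ R) (fun w => cH φ R H w + t * dir φ r w)) =
      κ * W n R (Function.update H r (H r + t)) := by
    intro t
    rw [pl_dir hNRM hPLC φ R hφ hR H r hr t, hvol R _ hR]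
  have hvl0 : vl (Pl (UU φ R) (cH φ R H)) = κ * W n R (Function.update H r (H r)) := by
    rw [Function.update_eq_self, hP, hvol R _ hR]
  have key : HasDerivAt (fun t : ℝ => W n R (Function.update H r t))
      ((∑ w ∈ UU φ R, fa (UU φ R) (cH φ R H) w * dir φ r w) / κ) (H r) := by
    refine hasDerivAt_of_logConcave _ _ _ (hH r hr) ?_ ?_ ?_ ?_
    · intro t ht
      exact (hWPS n R _ hR).2 (hpos t ht)
    · intro s s' l _ _ hl0 hl1
      have h4 := hWLC n R (Function.update H r s) (Function.update H r s') hR l hl0 hl1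
      have h5 : (fun q : ℕ => (1 - l) * Function.update H r s q + l * Function.update H r s' q) =
          Function.update H r ((1 - l) * s + l * s') := by
        funext q
        by_cases hq : q = r
        · rw [hq, Function.update_self, Function.update_self, Function.update_self]
        · rw [Function.update_of_ne hq, Function.update_of_ne hq, Function.update_of_ne hq]
          ring
      rw [h5] at h4
      exact h4
    · have h4 := hDER n (UU φ R) (cH φ R H) (dir φ r) hUn hBd (by
        rw [hP]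
        exact (hcb hH).full) (fun w _ => dir_nonneg φ r w)
      have h5 := h4.div_const κ
      refine h5.congr fun t => ?_
      rw [hvl t, hvl0]
      field_simp
    · intro e he
      have h4 := hINN n (UU φ R) (cH φ R H) (dir φ r) hUn hBd (fun w _ => dir_nonneg φ r w)
        (κ * e) (by positivity)
      filter_upwards [h4] with t ht
      have h5 : (fun w => cH φ R H w - t * dir φ r w) =
          fun w => cH φ R H w + (-t) * dir φ r w := by
        funext w
        ring
      rw [h5, hvl (-t), hvl0] at ht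
      have h6 : κ * (W n R (Function.update H r (H r)) -
          W n R (Function.update H r (H r - t))) ≤
          κ * (t * ((∑ w ∈ UU φ R, fa (UU φ R) (cH φ R H) w * dir φ r w) / κ + e)) := by
        have h7 : κ * (t * ((∑ w ∈ UU φ R, fa (UU φ R) (cH φ R H) w * dir φ r w) / κ + e)) =
            t * ((∑ w ∈ UU φ R, fa (UU φ R) (cH φ R H) w * dir φ r w) + κ * e) := by
          field_simp
        rw [h7, mul_sub]
        exact ht
      exact le_of_mul_le_mul_left h6 hκ
  have h4 : dW n R H r = (∑ w ∈ UU φ R, fa (UU φ R) (cH φ R H) w * dir φ r w) / κ := key.deriv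
  rw [h4]
  exact key

end PVD.H47
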